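import Pool.Agent.Helper32.B4.St

/-!
# Module LO: the lower bound for `F`
-/

set_option autoImplicit false

open Metric Set Filter Topology MeasureTheory

namespace Pool.Agent.Helper96.B4

open Pool.Agent.Helper32.B4
open Pool.Agent.Helper32.DX
open Pool.Agent.Helper64.C3

private theorem lo_real (D Y Z T A N S W V q F : ℝ)
    (hF : F = 20 * D - 24 * D ^ 2 + 8 * D ^ 3 + 16 * Z * D + 24 * (1 - D) * Y ^ 2
      - 16 * Y * T - q - 8 * A + 8 * W - 8 * V)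
    (h1 : 2 * D = S + N) (hD : 0 ≤ D) (hD2 : D ≤ 2) (hS : 0 ≤ S) (hA : A ≤ D)
    (hZ : 0 ≤ Z) (hW : 0 ≤ W) (hq : q ≤ 9 * S) (hDN : D ^ 2 ≤ N) (hY : Y ^ 2 ≤ S)
    (hT : 3 * T ^ 2 ≤ S) (hV : 12 * V ^ 2 ≤ S ^ 2) : -(32 * D) ≤ F := by
  have b1 : 16 * (Y * T) ≤ 9.25 * S := by
    have h : (16 * (Y * T)) ^ 2 ≤ (9.25 * S) ^ 2 := by
      have h2 : Y ^ 2 * (3 * T ^ 2) ≤ S * S := mul_le_mul hY hT (by positivity) hS
      nlinarith [sq_nonneg S]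
    exact (abs_le.1 (abs_le_of_sq_le_sq h (by positivity))).2
  have b2 : 8 * V ≤ 2.31 * S := by
    have h : (8 * V) ^ 2 ≤ (2.31 * S) ^ 2 := by nlinarith [sq_nonneg S]
    exact (abs_le.1 (abs_le_of_sq_le_sq h (by positivity))).2
  have hSD : S ≤ D * (2 - D) := by nlinarith
  have b3 : 0 ≤ 16 * Z * D := by positivity
  rcases le_total D 1 with hD1 | hD1
  · have b4 : 0 ≤ 24 * (1 - D) * Y ^ 2 := mul_nonneg (by linarith) (sq_nonneg _)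
    have b5 : 0 ≤ D * (2.88 - 3.44 * D + 8 * D ^ 2) :=
      mul_nonneg hD (by nlinarith [sq_nonneg (D - 0.215)])
    nlinarith
  · have b4 : -(24 * (D - 1) * S) ≤ 24 * (1 - D) * Y ^ 2 := by
      have : (D - 1) * Y ^ 2 ≤ (D - 1) * S := mul_le_mul_of_nonneg_left hY (by linarith)
      nlinarith
    have b6 : (D - 1) * S ≤ (D - 1) * (D * (2 - D)) :=
      mul_le_mul_of_nonneg_left hSD (by linarith)
    have b5 : 0 ≤ D * (32 * D ^ 2 - 75.44 * D + 50.88) :=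
      mul_nonneg hD (by nlinarith [sq_nonneg (D - 1.17875)])
    nlinarith

theorem hLO : StIA → StIB → StIC → StLO := by
  intro hA hB hC θ hθ
  obtain ⟨a1, _, _, _, a2, a3, _, a4, _, a5, _, _, a6, a7, a8⟩ := hA θ hθ
  obtain ⟨b1, _, _, b2, b3, _⟩ := hB θ hθ
  obtain ⟨_, _, _, _, _, c1⟩ := hC θ hθ
  exact lo_real (fD θ) (fY θ) (fZ θ) (fT θ) (fA θ) (fN θ) (fS θ) (fW θ) (fV θ) (fq θ) (FF θ)
    rfl a1 a2 a3 a4 a5 a6 a7 a8 b1 b2 b3 c1

end Pool.Agent.Helper96.B4
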